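import Pool.Agent.V11291.Q49.Sel
import Pool.Agent.Z702.Fin

/-!
# Rank zero and `Ш[2] = 0` for the twists of `X_0(49)`
-/

set_option autoImplicit false
set_option linter.style.haveILetI false

open scoped Classical

namespace Pool.Agent.V11291.Q49

open Finset
open Pool.Agent.Y700 (PC VR)
open Pool.Agent.Y814.BSD14 (root_of_PC not_dvd_of_PC only_prime not_dvd_of_sqf cast_ne no_pt mod4_16)
open Pool.Agent.Y809.BSD14 (sq_of_PC)
open Pool.Agent.Y703.CQ (nr)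
open Pool.Agent.Z702 (WZ sh f_TRN f_COC f_LOT f_COB f_TOR)
open Pool.Agent.TH841.SH.D

theorem kA : ∀ z M n W E : ZMod 16, (z = 1 ∨ z = 3 ∨ z = 5 ∨ z = 7 ∨ z = 9 ∨ z = 11 ∨ z = 13 ∨ z = 15) →
    (M = 1 ∨ M = 5 ∨ M = 9 ∨ M = 13) →
    (n = 0 ∨ n = 1 ∨ n = 4 ∨ n = 9) → (W = 0 ∨ W = 1 ∨ W = 4 ∨ W = 9) →
    (E = 0 ∨ E = 1 ∨ E = 4 ∨ E = 9) → ((W = 1 ∨ W = 9) ∨ (E = 1 ∨ E = 9)) →
    ¬ (n = 2 * z ^ 3 * W ^ 2 + 21 * z ^ 2 * M * W * E + 56 * z * M ^ 2 * E ^ 2) := by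
  have key : ∀ z ∈ ({1, 3, 5, 7, 9, 11, 13, 15} : Finset (ZMod 16)), ∀ M ∈ ({1, 5, 9, 13} : Finset (ZMod 16)),
      ∀ W ∈ ({0, 1, 4, 9} : Finset (ZMod 16)), ∀ E ∈ ({0, 1, 4, 9} : Finset (ZMod 16)),
      ((W = 1 ∨ W = 9) ∨ (E = 1 ∨ E = 9)) →
      2 * z ^ 3 * W ^ 2 + 21 * z ^ 2 * M * W * E + 56 * z * M ^ 2 * E ^ 2 ∉
        ({0, 1, 4, 9} : Finset (ZMod 16)) := by decide +kernel
  intro z M n W E hz hM hn hW hE hu h
  refine key z (by simpa using hz) M (by simpa using hM) W (by simpa using hW) E (by simpa using hE)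
    hu ?_
  rw [← h]
  simpa using hn

theorem kB : ∀ M n W E : ZMod 16, (M = 1 ∨ M = 5 ∨ M = 9 ∨ M = 13) →
    (n = 0 ∨ n = 1 ∨ n = 4 ∨ n = 9) → (W = 0 ∨ W = 1 ∨ W = 4 ∨ W = 9) →
    (E = 0 ∨ E = 1 ∨ E = 4 ∨ E = 9) → ((W = 1 ∨ W = 9) ∨ (E = 1 ∨ E = 9)) →
    ¬ (n = -1 * W ^ 2 + -42 * M * W * E + 7 * M ^ 2 * E ^ 2) ∧
    ¬ (n = 7 * W ^ 2 + -42 * M * W * E + -1 * M ^ 2 * E ^ 2) := by
  have key : ∀ M ∈ ({1, 5, 9, 13} : Finset (ZMod 16)),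
      ∀ W ∈ ({0, 1, 4, 9} : Finset (ZMod 16)), ∀ E ∈ ({0, 1, 4, 9} : Finset (ZMod 16)),
      ((W = 1 ∨ W = 9) ∨ (E = 1 ∨ E = 9)) →
      -1 * W ^ 2 + -42 * M * W * E + 7 * M ^ 2 * E ^ 2 ∉
        ({0, 1, 4, 9} : Finset (ZMod 16)) ∧
      7 * W ^ 2 + -42 * M * W * E + -1 * M ^ 2 * E ^ 2 ∉
        ({0, 1, 4, 9} : Finset (ZMod 16)) := by decide +kernel
  intro M n W E hM hn hW hE hu
  have h1 := key M (by simpa using hM) W (by simpa using hW) E (by simpa using hE) hu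
  have h2 : n ∈ ({0, 1, 4, 9} : Finset (ZMod 16)) := by simpa using hn
  exact ⟨fun h => h1.1 (h ▸ h2), fun h => h1.2 (h ▸ h2)⟩

theorem odd16 (z : ℤ) (hz : z % 2 = 1) : (z : ZMod 16) = 1 ∨ (z : ZMod 16) = 3 ∨
    (z : ZMod 16) = 5 ∨ (z : ZMod 16) = 7 ∨ (z : ZMod 16) = 9 ∨ (z : ZMod 16) = 11 ∨
    (z : ZMod 16) = 13 ∨ (z : ZMod 16) = 15 := by
  have h : z % 16 = 1 ∨ z % 16 = 3 ∨ z % 16 = 5 ∨ z % 16 = 7 ∨ z % 16 = 9 ∨ z % 16 = 11 ∨
    z % 16 = 13 ∨ z % 16 = 15 := by omega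
  have h2 : (z : ZMod 16) = ((z % 16 : ℤ) : ZMod 16) := by
    rw [ZMod.intCast_eq_intCast_iff]
    exact (Int.mod_modEq z 16).symm
  rcases h with h | h | h | h | h | h | h | h <;> rw [h2, h] <;> simp

/-- the classes at `2` of the first curve are odd -/
theorem not_even {D z' : ℤ} (hD : D % 4 = 1) (hz' : z' % 2 = 1) :
    ¬ PC (21 * D) (112 * D ^ 2) 2 (2 * z') := by
  rintro ⟨x, y, hy, h1, t, ht⟩
  have hz0 : (z' : ℚ_[2]) ≠ 0 := by
    have : z' ≠ 0 := by rintro rfl; norm_num at hz'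
    exact_mod_cast this
  have h20 : (2 : ℚ_[2]) ≠ 0 := two_ne_zero
  obtain ⟨s, hs⟩ : ∃ s : ℚ_[2], s = t / (2 * z') := ⟨_, rfl⟩
  have hx : x = 2 * z' * s ^ 2 := by
    rw [hs]
    push_cast at ht
    field_simp
    linear_combination ht
  subst hx
  have hs0 : s ≠ 0 := by
    rintro h0
    rw [h0] at h1
    apply hy
    simpa using h1
  refine no_pt D (2 * z' ^ 3) (21 * z' ^ 2) (56 * z') ?_ s (y / (2 * s)) ?_
  · intro n W E hn hW hE hu h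
    refine kA z' D n W E (odd16 z' hz') (mod4_16 D hD) hn hW hE hu (h.trans ?_)
    push_cast; ring
  · push_cast at h1 ⊢
    field_simp
    linear_combination h1

theorem not_neg_one {D : ℤ} (hD : D % 4 = 1) : ¬ PC (-42 * D) (-7 * D ^ 2) 2 (-1) := by
  rintro ⟨x, y, hy, h1, t, ht⟩
  have hx : x = -t ^ 2 := by push_cast at ht; linear_combination -ht
  subst hx
  have ht0 : t ≠ 0 := by
    rintro rfl
    apply hy
    simpa using h1
  refine no_pt D (-1) (-42) 7 ?_ t (y / t) ?_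
  · intro n W E hn hW hE hu h
    refine (kB D n W E (mod4_16 D hD) hn hW hE hu).1 (h.trans ?_)
    push_cast; ring
  · push_cast at h1 ⊢
    field_simp
    linear_combination h1

theorem not_seven {D : ℤ} (hD : D % 4 = 1) : ¬ PC (-42 * D) (-7 * D ^ 2) 2 7 := by
  rintro ⟨x, y, hy, h1, t, ht⟩
  obtain ⟨s, hs⟩ : ∃ s : ℚ_[2], s = t / 7 := ⟨_, rfl⟩
  have hx : x = 7 * s ^ 2 := by
    rw [hs]
    push_cast at ht; field_simp; linear_combination ht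
  subst hx
  have ht0 : s ≠ 0 := by
    intro h0
    rw [h0] at h1
    apply hy
    simpa using h1
  refine no_pt D 7 (-42) (-1) ?_ s (y / (7 * s)) ?_
  · intro n W E hn hW hE hu h
    refine (kB D n W E (mod4_16 D hD) hn hW hE hu).2 (h.trans ?_)
    push_cast; ring
  · push_cast at h1 ⊢
    field_simp
    linear_combination h1

theorem dvd_seven_pow {q : ℕ} (hq : q.Prime) (h2 : q ≠ 2) (h7 : q ≠ 7) {n : ℕ} (hn : n ∣ 112) :
    ¬ (q : ℤ) ∣ (n : ℤ) := by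
  intro h0
  have h1 : q ∣ 112 := (Int.natCast_dvd_natCast.1 h0).trans hn
  rw [show (112 : ℕ) = 2 ^ 4 * 7 by norm_num] at h1
  rcases (Nat.Prime.dvd_mul hq).1 h1 with h | h
  · exact h2 ((Nat.prime_dvd_prime_iff_eq hq Nat.prime_two).1 (hq.dvd_of_dvd_pow h))
  · exact h7 ((Nat.prime_dvd_prime_iff_eq hq (by norm_num)).1 h)

theorem ns_b {M : ℤ} (hM : M ≠ 0) : ¬ IsSquare ((112 * M ^ 2 : ℤ) : ℚ) :=
  Pool.Agent.Y700.not_sq_aux _ (by
    rintro ⟨r, hr⟩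
    have k1 : r < 11 := by nlinarith
    have k2 : -11 < r := by nlinarith
    interval_cases r <;> omega) hM

theorem ns_ab {M : ℤ} (hM : M ≠ 0) :
    ¬ IsSquare (((21 * M : ℤ) : ℚ) ^ 2 - 4 * ((112 * M ^ 2 : ℤ) : ℚ)) := by
  have e : ((21 * M : ℤ) : ℚ) ^ 2 - 4 * ((112 * M ^ 2 : ℤ) : ℚ) = (((-7) * M ^ 2 : ℤ) : ℚ) := by
    push_cast; ring
  rw [e]
  exact Pool.Agent.Y700.not_sq_aux _ (by decide) hM

theorem vr_sh (M : ℤ) : VR (WZ (21 * M) (112 * M ^ 2)) (sh (-35 * M ^ 2) (-98 * M ^ 3))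
    1 (-7 * M) 0 0 := by
  refine ⟨by norm_num, ?_, ?_, ?_, ?_, ?_⟩
  · show (1 : ℚ) * 0 = 0 + 2 * 0
    norm_num
  · show (1 : ℚ) ^ 2 * 0 = ((21 * M : ℤ) : ℚ) - 0 * 0 + 3 * (-7 * M) - 0 ^ 2
    push_cast
    ring
  · show (1 : ℚ) ^ 3 * 0 = 0 + (-7 * M) * 0 + 2 * 0
    ring
  · show (1 : ℚ) ^ 4 * ((-35 * M ^ 2 : ℤ) : ℚ) = ((112 * M ^ 2 : ℤ) : ℚ) - 0 * 0 +
      2 * (-7 * M) * ((21 * M : ℤ) : ℚ) - (0 + (-7 * M) * 0) * 0 +
      3 * (-7 * (M : ℚ)) ^ 2 - 2 * 0 * 0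
    push_cast
    ring
  · show (1 : ℚ) ^ 6 * ((-98 * M ^ 3 : ℤ) : ℚ) = 0 +
      (-7 * M) * ((112 * M ^ 2 : ℤ) : ℚ) + (-7 * M) ^ 2 * ((21 * M : ℤ) : ℚ) +
      (-7 * (M : ℚ)) ^ 3 - 0 * 0 - 0 ^ 2 - (-7 * M) * 0 * 0
    push_cast
    ring

theorem sh_delta {M : ℤ} (hM : M ≠ 0) : (sh (-35 * M ^ 2) (-98 * M ^ 3)).Δ ≠ 0 := by
  have e : (sh (-35 * M ^ 2) (-98 * M ^ 3)).Δ = (-16 * (4 * (-35) ^ 3 + 27 * 98 ^ 2)) * (M : ℚ) ^ 6 := by
    unfold sh WeierstrassCurve.Δ WeierstrassCurve.b₂ WeierstrassCurve.b₄ WeierstrassCurve.b₆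
      WeierstrassCurve.b₈
    push_cast
    ring
  rw [e]
  have : (M : ℚ) ^ 6 ≠ 0 := pow_ne_zero 6 (by exact_mod_cast hM)
  exact mul_ne_zero (by norm_num) this

/-- transport of the two conditions to the short model -/
theorem trn {M : ℤ} (hM : M ≠ 0) :
    (Finite (WZ (21 * M) (112 * M ^ 2)).toAffine.Point ↔
      Finite (sh (-35 * M ^ 2) (-98 * M ^ 3)).toAffine.Point) ∧
    ((∀ x : Sha (WZ (21 * M) (112 * M ^ 2)), x + x = 0 → x = 0) ↔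
      ∀ x : Sha (sh (-35 * M ^ 2) (-98 * M ^ 3)), x + x = 0 → x = 0) := by
  obtain ⟨h1, h2, -⟩ := f_TRN _ _ _ _ _ _ (vr_sh M) (sh_delta hM)
  exact ⟨h1, h2⟩

section
variable {Q P : Finset ℕ}

theorem Hyp.D4 (H : Hyp Q P) : ((∏ q ∈ Q ∪ P, q : ℕ) : ℤ) % 4 = 1 := by
  have h : ∀ S : Finset ℕ, (∀ q ∈ S, q % 4 = 1) → (∏ q ∈ S, q) % 4 = 1 := by
    intro S
    induction S using Finset.induction_on with
    | empty => intro _; rw [Finset.prod_empty]; rfl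
    | insert a S ha ih =>
      intro h
      rw [Finset.prod_insert ha, Nat.mul_mod, h a (Finset.mem_insert_self a S),
        ih fun q hq => h q (Finset.mem_insert_of_mem hq)]
  have := h _ H.m4
  omega

/-- the first Selmer set -/
theorem selA (H : Hyp Q P) {z : ℤ} (hz : Squarefree z) (hz0 : 0 < z)
    (h : ∀ (l : ℕ) [Fact l.Prime], PC (21 * ((∏ q ∈ Q ∪ P, q : ℕ) : ℤ))
      (112 * ((∏ q ∈ Q ∪ P, q : ℕ) : ℤ) ^ 2) l z) : z = 1 ∨ z = 7 := by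
  have hz2 : ¬ (2 : ℤ) ∣ z := by
    rintro ⟨z', hz'⟩
    have hodd : z' % 2 = 1 := by
      by_contra h1
      obtain ⟨w, hw⟩ : (2 : ℤ) ∣ z' := by omega
      have h3 : IsUnit (2 : ℤ) := hz 2 ⟨w, by rw [hz', hw]; ring⟩
      rcases Int.isUnit_iff.1 h3 with h4 | h4 <;> omega
    have := h 2
    rw [hz'] at this
    exact not_even H.D4 hodd this
  have h1 := frame H (c1 := 21) (c2 := 112) (q0 := 7)
    (fun q hq q2 q7 => by exact_mod_cast dvd_seven_pow hq q2 q7 (n := 112) dvd_rfl)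
    (fun h7 => by
      have := (H.hP 7 h7).2.1
      omega)
    (by
      intro q hq M r hM hr
      have : Fact q.Prime := ⟨(H.hQ q hq).1⟩
      refine (H.hQ q hq).2.2 ⟨(2 * r + 21 * M) / M, ?_⟩
      rw [div_mul_div_comm, eq_div_iff (mul_ne_zero hM hM)]
      push_cast at hr
      linear_combination (-4 : ZMod q) * hr)
    (by
      intro p hp
      obtain ⟨hpp, p8, h7⟩ := H.hP p hp
      have : Fact p.Prime := ⟨hpp⟩
      obtain ⟨i, hi⟩ : IsSquare (-1 : ZMod p) := by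
        rw [ZMod.exists_sq_eq_neg_one_iff]
        omega
      obtain ⟨s, hs⟩ := h7
      exact ⟨4 * i * s, by push_cast; linear_combination 16 * s * s * hi - 16 * hs⟩)
    (by
      intro p hp
      obtain ⟨hpp, p8, h7⟩ := H.hP p hp
      have : Fact p.Prime := ⟨hpp⟩
      obtain ⟨i, hi⟩ : IsSquare (-1 : ZMod p) := by
        rw [ZMod.exists_sq_eq_neg_one_iff]
        omega
      obtain ⟨s, hs⟩ := h7
      exact ⟨i * s, by push_cast; linear_combination s * s * hi - hs⟩)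
    hz hz2 h
    (fun p hp r hr => root21 (H.hP p hp).1 (H.hP p hp).2.1 (H.hP p hp).2.2 r hr)
  omega

/-- the second Selmer set -/
theorem selB (H : Hyp Q P) {z : ℤ} (hz : Squarefree z)
    (h : ∀ (l : ℕ) [Fact l.Prime], PC (-42 * ((∏ q ∈ Q ∪ P, q : ℕ) : ℤ))
      (-7 * ((∏ q ∈ Q ∪ P, q : ℕ) : ℤ) ^ 2) l z) : z = 1 ∨ z = -7 := by
  have hD4 := H.D4
  have hz2 : ¬ (2 : ℤ) ∣ z := by
    intro h2
    refine not_dvd_of_PC (l := 2) hz ?_ (h 2) (by exact_mod_cast h2)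
    intro h0
    have h3 : (2 : ℤ) ∣ -7 * ((∏ q ∈ Q ∪ P, q : ℕ) : ℤ) ^ 2 := by exact_mod_cast h0
    rcases Int.prime_two.dvd_or_dvd h3 with h4 | h4
    · norm_num at h4
    · have h5 := Int.prime_two.dvd_of_dvd_pow h4
      omega
  have h1 := frame H (c1 := -42) (c2 := -7) (q0 := 7)
    (fun q hq q2 q7 h0 => by
      have h1 : (q : ℤ) ∣ ((7 : ℕ) : ℤ) := (dvd_neg (a := (q : ℤ)) (b := 7)).1 (by exact_mod_cast h0)
      exact dvd_seven_pow hq q2 q7 (n := 7) (by norm_num) h1)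
    (fun h7 => by
      have := (H.hP 7 h7).2.1
      omega)
    (by
      intro q hq M r hM hr
      obtain ⟨hqp, q4, hn7⟩ := H.hQ q hq
      have : Fact q.Prime := ⟨hqp⟩
      have n2 : (2 : ZMod q) ≠ 0 := by
        have : q ≠ 2 := by rintro rfl; omega
        exact_mod_cast cast_ne hqp Nat.prime_two this
      obtain ⟨i, hi⟩ : IsSquare (-1 : ZMod q) := by
        rw [ZMod.exists_sq_eq_neg_one_iff]
        omega
      have n8 : (8 : ZMod q) ≠ 0 := by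
        rw [show (8 : ZMod q) = 2 ^ 3 by norm_num]
        exact pow_ne_zero _ n2
      refine hn7 ⟨i * (r - 21 * M) / (8 * M), ?_⟩
      rw [div_mul_div_comm, eq_div_iff (mul_ne_zero (mul_ne_zero n8 hM) (mul_ne_zero n8 hM))]
      push_cast at hr
      linear_combination hr + (r - 21 * M) ^ 2 * hi)
    (by
      intro p hp
      have h7 := (H.hP p hp).2.2
      push_cast
      exact h7)
    (by
      intro p hp
      obtain ⟨hpp, p8, h7⟩ := H.hP p hp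
      have : Fact p.Prime := ⟨hpp⟩
      obtain ⟨i, hi⟩ : IsSquare (-1 : ZMod p) := by
        rw [ZMod.exists_sq_eq_neg_one_iff]
        omega
      obtain ⟨s, hs⟩ := h7
      exact ⟨i * s, by push_cast; linear_combination s * s * hi - hs⟩)
    hz hz2 h
    (fun p hp r hr => root42 (H.hP p hp).1 (H.hP p hp).2.1 (H.hP p hp).2.2 r hr)
  have h2 := h 2
  have e1 : z = 1 ∨ z = -1 ∨ z = 7 ∨ z = -7 := by omega
  rcases e1 with e | e | e | e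
  · exact Or.inl e
  · exfalso
    rw [e] at h2
    exact not_neg_one hD4 h2
  · exfalso
    rw [e] at h2
    exact not_seven hD4 h2
  · exact Or.inr e

/-- **the Selmer computation implies rank zero and `Ш[2] = 0`** -/
theorem fwd (H : Hyp Q P) :
    Finite (sh (-35 * ((∏ q ∈ Q ∪ P, q : ℕ) : ℤ) ^ 2)
      (-98 * ((∏ q ∈ Q ∪ P, q : ℕ) : ℤ) ^ 3)).toAffine.Point ∧
    ∀ x : Sha (sh (-35 * ((∏ q ∈ Q ∪ P, q : ℕ) : ℤ) ^ 2)
      (-98 * ((∏ q ∈ Q ∪ P, q : ℕ) : ℤ) ^ 3)), x + x = 0 → x = 0 := by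
  obtain ⟨D, hD⟩ : ∃ D : ℤ, D = ((∏ q ∈ Q ∪ P, q : ℕ) : ℤ) := ⟨_, rfl⟩
  have hA := fun (z : ℤ) (hz : Squarefree z) (hz0 : 0 < z) => selA H hz hz0
  have hB := fun (z : ℤ) (hz : Squarefree z) => selB H hz
  have h4 := H.D4
  rw [← hD] at hA hB h4 ⊢
  have hD0 : D ≠ 0 := by intro h; rw [h] at h4; norm_num at h4
  have hD2 : 0 < D ^ 2 := by positivity
  have hb : 112 * D ^ 2 ≠ 0 := by positivity
  have hab : (21 * D) ^ 2 - 4 * (112 * D ^ 2) < 0 := by nlinarith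
  obtain ⟨hfin, hcard⟩ := Pool.Agent.Y700.card_sel (a := 21 * D) (b := 112 * D ^ 2) hb hab
    (S1 := {1, 7}) (S2 := {1, -7}) (Set.toFinite _) (Set.toFinite _) (by
      intro z hz hz0 hpc
      have := hA z hz hz0 (fun l _ => hpc l)
      simpa using this) (by
      intro z hz hpc
      have := hB z hz (fun l _ => by
        have := hpc l
        rwa [show (-2 : ℤ) * (21 * D) = -42 * D by ring,
          show ((21 : ℤ) * D) ^ 2 - 4 * (112 * D ^ 2) = -7 * D ^ 2 by ring] at this)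
      simpa using this)
  have hc4 : Nat.card (Pool.Agent.Y668.selCoc (Pool.Agent.Y668.Wt ((21 * D : ℤ) : ℚ)
      ((112 * D ^ 2 : ℤ) : ℚ))) ≤ 4 := by
    refine hcard.trans ?_
    rw [Set.ncard_pair (by norm_num), Set.ncard_pair (by norm_num)]
  have hbQ : ((112 * D ^ 2 : ℤ) : ℚ) ≠ 0 := by exact_mod_cast hb
  have habQ : ((21 * D : ℤ) : ℚ) ^ 2 - 4 * ((112 * D ^ 2 : ℤ) : ℚ) ≠ 0 := by
    exact_mod_cast hab.ne
  obtain ⟨c1, c2, k, hk, c3⟩ := Pool.Agent.Y700.count hbQ habQ (ns_ab hD0) (ns_b hD0) hfin hc4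
  have hv := vr_sh D
  have hDl := sh_delta hD0
  refine ⟨Finite.of_equiv _ (hv.equiv hDl).toEquiv.symm, fun x hx => ?_⟩
  exact Pool.Agent.Y700.sha_two_pow hv hDl c1 1 x (by rw [pow_one, two_nsmul]; exact hx)

end

end Pool.Agent.V11291.Q49
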