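import Pool.Agent.V11291.Q49.Gd
import Pool.Agent.V11291.GQ.Cls
import Pool.Agent.V11291.GQ.Asy

/-!
# The classes of primes for the twists of `X_0(49)` over a multiquadratic field
-/

set_option autoImplicit false

open scoped Classical

namespace Pool.Agent.V11291.Q49

open Finset
open Pool.Agent.V11291.GQ
open Pool.Agent.Y475.CQ
open Pool.Agent.Y703.CQ (nr c2)

/-- the row primes: split in `ℚ(√-7)` and in the `ℚ(√r)` -/
def AF (F : Finset ℕ) (p : ℕ) : Prop :=
  p.Prime ∧ p % 4 = 1 ∧ IsSquare (-7 : ZMod p) ∧ ∀ r ∈ F, IsSquare (p : ZMod r)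

/-- the other primes: inert in `ℚ(√-7)` -/
def BF (F : Finset ℕ) (p : ℕ) : Prop :=
  p.Prime ∧ p % 4 = 1 ∧ ¬ IsSquare (-7 : ZMod p) ∧ p ∉ F

/-- the fields -/
def FF (F : Finset ℕ) : Prop := ∀ r ∈ F, r.Prime ∧ r % 4 = 1 ∧ ¬ IsSquare (-7 : ZMod r)

theorem FF.pr {F : Finset ℕ} (hF : FF F) : ∀ r ∈ F, r.Prime ∧ r % 4 = 1 :=
  fun r hr => ⟨(hF r hr).1, (hF r hr).2.1⟩

theorem neg_one_sq {p : ℕ} (hp : p.Prime) (h4 : p % 4 = 1) : IsSquare (-1 : ZMod p) := by
  have : Fact p.Prime := ⟨hp⟩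
  rw [ZMod.exists_sq_eq_neg_one_iff]
  omega

theorem sq_seven {p : ℕ} (hp : p.Prime) (h4 : p % 4 = 1) :
    IsSquare (-7 : ZMod p) ↔ IsSquare (7 : ZMod p) := by
  have h1 := neg_one_sq hp h4
  have e : (-7 : ZMod p) = -1 * 7 := by ring
  have e' : (7 : ZMod p) = -1 * -7 := by ring
  constructor
  · intro h
    rw [e']
    exact h1.mul h
  · intro h
    rw [e]
    exact h1.mul h

theorem J_seven {p : ℕ} (hp : p.Prime) (h4 : p % 4 = 1) :
    (ch 7 p = 1 ↔ IsSquare (-7 : ZMod p)) ∧ (ch 7 p = -1 ↔ ¬ IsSquare (-7 : ZMod p)) := by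
  have hf : Fact p.Prime := ⟨hp⟩
  have e : ch 7 p = ((jacobiSym (p : ℤ) 7 : ℤ) : ℝ) := rfl
  have h1 : jacobiSym (p : ℤ) 7 = jacobiSym ((7 : ℕ) : ℤ) p :=
    jacobiSym.quadratic_reciprocity_one_mod_four h4 (by decide)
  have hne : (((7 : ℕ) : ℤ) : ZMod p) ≠ 0 := by
    intro h0
    rw [Int.cast_natCast, ZMod.natCast_eq_zero_iff] at h0
    have := (Nat.prime_dvd_prime_iff_eq hp (by norm_num)).1 h0
    rw [this] at h4
    norm_num at h4
  rw [e, h1, leg, sq_seven hp h4]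
  constructor
  · have h2 := legendreSym.eq_one_iff p hne
    rw [Int.cast_natCast] at h2
    rw [show ((7 : ℕ) : ZMod p) = 7 by norm_num] at h2
    rw [← h2]
    constructor
    · intro h
      exact_mod_cast h
    · intro h
      exact_mod_cast h
  · have h2 := legendreSym.eq_neg_one_iff p (a := ((7 : ℕ) : ℤ))
    rw [Int.cast_natCast] at h2
    rw [show ((7 : ℕ) : ZMod p) = 7 by norm_num] at h2
    rw [← h2]
    constructor
    · intro h
      exact_mod_cast h
    · intro h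
      exact_mod_cast h

theorem J_r {p r : ℕ} (hp : p.Prime) (hr : r.Prime) (hpr : p ≠ r) :
    ch r p = 1 ↔ IsSquare (p : ZMod r) := by
  have hf : Fact r.Prime := ⟨hr⟩
  have e : ch r p = ((jacobiSym (p : ℤ) r : ℤ) : ℝ) := by
    unfold ch
    rw [if_neg hr.ne_zero]
    rfl
  have hne : (((p : ℕ) : ℤ) : ZMod r) ≠ 0 := by
    intro h0
    rw [Int.cast_natCast, ZMod.natCast_eq_zero_iff] at h0
    exact hpr ((Nat.prime_dvd_prime_iff_eq hr hp).1 h0).symm
  rw [e, leg]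
  have h2 := legendreSym.eq_one_iff r hne
  rw [Int.cast_natCast] at h2
  rw [← h2]
  constructor
  · intro h
    exact_mod_cast h
  · intro h
    exact_mod_cast h

theorem ch0_one {p : ℕ} : ch 0 p = 1 ↔ p % 4 = 1 := c0_one

section
variable {F : Finset ℕ}

/-- a prime is prime to the modulus -/
theorem cop_mod (hF : FF F) {p : ℕ} (hp : p.Prime) :
    p.Coprime (∏ i ∈ Ix F, md i) ↔ p ≠ 2 ∧ p ≠ 7 ∧ p ∉ F := by
  rw [Nat.coprime_prod_right_iff]
  have m0 : md 0 = 4 := rfl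
  have m7 : md 7 = 7 := rfl
  constructor
  · intro h
    refine ⟨?_, ?_, ?_⟩
    · have h1 := h 0 (by unfold Ix; simp)
      rw [m0] at h1
      rintro rfl
      exact absurd h1 (by decide)
    · have h1 := h 7 (by unfold Ix; simp)
      rw [m7] at h1
      rintro rfl
      exact absurd h1 (by decide)
    · intro hpF
      have h1 := h p (by unfold Ix; rw [mem_union]; exact Or.inr hpF)
      rw [md_F hF.pr hpF, Nat.coprime_self] at h1
      exact hp.one_lt.ne' h1
  · rintro ⟨h2, h7, hpF⟩ i hi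
    unfold Ix at hi
    rw [mem_union, mem_insert, mem_singleton] at hi
    rcases hi with (rfl | rfl) | hi
    · rw [m0, show 4 = 2 ^ 2 by norm_num]
      exact Nat.Coprime.pow_right 2 ((Nat.coprime_primes hp Nat.prime_two).2 h2)
    · rw [m7]
      exact (Nat.coprime_primes hp (by norm_num)).2 h7
    · rw [md_F hF.pr hi]
      refine (Nat.coprime_primes hp (hF i hi).1).2 ?_
      rintro rfl
      exact hpF hi

theorem AF.notF (hF : FF F) {p : ℕ} (h : AF F p) : p ∉ F := fun hp => (hF p hp).2.2 h.2.2.1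

theorem AF_iff (hF : FF F) {p : ℕ} :
    AF F p ↔ p.Prime ∧ p.Coprime (∏ i ∈ Ix F, md i) ∧ ∀ i ∈ Ix F, ch i p = 1 := by
  constructor
  · intro h
    have hpF := AF.notF hF h
    obtain ⟨h1, h2, h3, h4⟩ := h
    refine ⟨h1, (cop_mod hF h1).2 ⟨?_, ?_, hpF⟩, ?_⟩
    · rintro rfl; norm_num at h2
    · rintro rfl; norm_num at h2
    · intro i hi
      unfold Ix at hi
      rw [mem_union, mem_insert, mem_singleton] at hi
      rcases hi with (rfl | rfl) | hi
      · exact ch0_one.2 h2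
      · exact (J_seven h1 h2).1.2 h3
      · refine (J_r h1 (hF i hi).1 ?_).2 (h4 i hi)
        rintro rfl
        exact hpF hi
  · rintro ⟨h1, h2, h3⟩
    have h5 := (cop_mod hF h1).1 h2
    have h4 : p % 4 = 1 := ch0_one.1 (h3 0 (by unfold Ix; simp))
    refine ⟨h1, h4, (J_seven h1 h4).1.1 (h3 7 (by unfold Ix; simp)), fun r hr => ?_⟩
    refine (J_r h1 (hF r hr).1 ?_).1 (h3 r (by unfold Ix; rw [mem_union]; exact Or.inr hr))
    rintro rfl
    exact h5.2.2 hr

/-- the values of the characters at the inert primes -/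
noncomputable def eB (i : ℕ) : ℝ := if i = 7 then -1 else 1

theorem BF_iff (hF : FF F) {p : ℕ} :
    BF F p ↔ p.Prime ∧ p.Coprime (∏ i ∈ Ix F, md i) ∧ ∀ i ∈ ({0, 7} : Finset ℕ), ch i p = eB i := by
  have e0 : eB 0 = 1 := if_neg (by norm_num)
  have e7 : eB 7 = -1 := if_pos rfl
  constructor
  · rintro ⟨h1, h2, h3, h4⟩
    refine ⟨h1, (cop_mod hF h1).2 ⟨?_, ?_, h4⟩, ?_⟩
    · rintro rfl; norm_num at h2
    · rintro rfl; norm_num at h2
    · intro i hi
      rw [mem_insert, mem_singleton] at hi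
      rcases hi with rfl | rfl
      · rw [e0]; exact ch0_one.2 h2
      · rw [e7]; exact (J_seven h1 h2).2.2 h3
  · rintro ⟨h1, h2, h3⟩
    have h5 := (cop_mod hF h1).1 h2
    have h4 : p % 4 = 1 := ch0_one.1 (by rw [h3 0 (by simp), e0])
    exact ⟨h1, h4, (J_seven h1 h4).2.1 (by rw [h3 7 (by simp), e7]), h5.2.2⟩

theorem card_Ix (hF : FF F) : (Ix F).card = F.card + 2 := by
  have h0 : (0 : ℕ) ∉ F := fun h => (hF 0 h).1.ne_zero rfl
  have h7 : (7 : ℕ) ∉ F := fun h => by have := (hF 7 h).2.1; norm_num at this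
  unfold Ix
  rw [card_union_of_disjoint]
  · rw [add_comm]
    rfl
  · rw [Finset.disjoint_left]
    intro i hi hiF
    rw [mem_insert, mem_singleton] at hi
    rcases hi with rfl | rfl
    · exact h0 hiF
    · exact h7 hiF

/-- **the data** -/
theorem dat_F (hF : FF F) : Dat (AF F) (BF F) (1 / 2 ^ (F.card + 2)) (1 / 4) := by
  have hc := chs_Ix hF.pr
  have hA : ∀ p, AF F p ↔ RC (∏ i ∈ Ix F, md i) (Rs ch (Ix F) (∏ i ∈ Ix F, md i) fun _ => 1) p :=
    fun p => by rw [rc_iff hc]; exact AF_iff hF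
  have hc2 : Chs ch ({0, 7} : Finset ℕ) (∏ i ∈ Ix F, md i) :=
    hc.mono (by unfold Ix; exact subset_union_left)
  have hB : ∀ p, BF F p ↔ RC (∏ i ∈ Ix F, md i) (Rs ch {0, 7} (∏ i ∈ Ix F, md i) eB) p :=
    fun p => by rw [rc_iff hc2]; exact BF_iff hF
  have hA' : AF F = RC (∏ i ∈ Ix F, md i) (Rs ch (Ix F) (∏ i ∈ Ix F, md i) fun _ => 1) := by
    funext p
    exact propext (hA p)
  have hB' : BF F = RC (∏ i ∈ Ix F, md i) (Rs ch {0, 7} (∏ i ∈ Ix F, md i) eB) := by
    funext p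
    exact propext (hB p)
  have heB : ∀ i, eB i = 1 ∨ eB i = -1 := by
    intro i
    unfold eB
    split_ifs
    · exact Or.inr rfl
    · exact Or.inl rfl
  have hone : ∀ i : ℕ, (fun _ : ℕ => (1 : ℝ)) i = 1 ∨ (fun _ : ℕ => (1 : ℝ)) i = -1 :=
    fun _ => Or.inl rfl
  refine ⟨fun p h => ⟨h.1, h.2.1⟩, fun p h => ⟨h.1, by
    have := h.2.1; rintro rfl; norm_num at this⟩, fun p h h' => h'.2.2.1 h.2.2.1, by positivity,
    by norm_num, ?_, ?_, ?_, ?_, ?_⟩
  · have h1 : (1 : ℝ) / 2 ^ (F.card + 2) ≤ 1 / 4 := by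
      rw [pow_add]
      have h2 : (1 : ℝ) ≤ 2 ^ F.card := one_le_pow₀ (by norm_num)
      rw [div_le_div_iff₀ (by positivity) (by norm_num)]
      nlinarith
    linarith
  · rw [hA']
    have h1 := mer_rs hc hone
    rw [card_Ix hF] at h1
    exact h1
  · rw [hB']
    have h1 := mer_rs hc2 heB
    have h2 : ({0, 7} : Finset ℕ).card = 2 := rfl
    rw [h2] at h1
    norm_num at h1 ⊢
    exact h1
  · rw [hA']
    exact che_rs hc hone
  · have h1 := hal hc (AF F) fun p hp => by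
      have h2 := (AF_iff hF).1 hp
      exact ⟨h2.1, hp.2.1, h2.2.1, h2.2.2⟩
    rw [card_Ix hF] at h1
    exact h1

/-- many row primes at which a product of primes is not a square -/
theorem sep_e (hF : FF F) {e : Finset ℕ} (he : ∀ r ∈ e, r.Prime ∧ r % 4 = 1) (hd : Disjoint e F)
    (hne : e.Nonempty) : ∃ δ C : ℝ, 0 < δ ∧ ∀ y : ℕ, 3 ≤ y →
    δ * Real.log (Real.log y) - C ≤
    ∑ p ∈ (range (y + 1)).filter (fun p => AF F p ∧ ∑ u ∈ e, nr p u ≠ 0), (1 : ℝ) / p := by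
  obtain ⟨hc, hnot⟩ := chs_F hF.pr he hd hne
  obtain ⟨M, hM⟩ : ∃ M : ℕ, M = ∏ u ∈ e, u := ⟨_, rfl⟩
  obtain ⟨q, hq⟩ : ∃ q : ℕ, q = ∏ i ∈ insert (∏ u ∈ e, u) (Ix F), md i := ⟨_, rfl⟩
  rw [← hq, ← hM] at hc
  rw [← hM] at hnot
  obtain ⟨ε, hε⟩ : ∃ ε : ℕ → ℝ, ∀ i, ε i = if i = M then -1 else 1 := ⟨_, fun _ => rfl⟩
  have hε1 : ∀ i, ε i = 1 ∨ ε i = -1 := by
    intro i
    rw [hε]
    split_ifs
    · exact Or.inr rfl
    · exact Or.inl rfl
  obtain ⟨C, hC⟩ := mer_rs hc hε1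
  refine ⟨1 / 2 ^ (insert M (Ix F)).card, C, by positivity, fun y hy => ?_⟩
  have h1 := (abs_le.1 (hC y hy)).1
  have h2 : (range (y + 1)).filter (fun p => RC q (Rs ch (insert M (Ix F)) q ε) p) ⊆
      (range (y + 1)).filter (fun p => AF F p ∧ ∑ u ∈ e, nr p u ≠ 0) := by
    intro p hp
    rw [mem_filter, rc_iff hc] at hp
    rw [mem_filter]
    obtain ⟨h3, h4, h5, h6⟩ := hp
    have hone : ∀ i ∈ Ix F, ch i p = 1 := by
      intro i hi
      rw [h6 i (mem_insert_of_mem hi), hε, if_neg]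
      rintro rfl
      exact hnot hi
    have hMp : ch M p = -1 := by
      rw [h6 M (mem_insert_self _ _), hε, if_pos rfl]
    have hsub : p.Coprime (∏ i ∈ Ix F, md i) := by
      refine h5.coprime_dvd_right ?_
      rw [hq, ← hM, prod_insert hnot]
      exact dvd_mul_left _ _
    have hAF : AF F p := (AF_iff hF).2 ⟨h4, hsub, hone⟩
    refine ⟨h3, hAF, fun h0 => ?_⟩
    have hM0 : M ≠ 0 := by
      rw [hM, prod_ne_zero_iff]
      exact fun u hu => (he u hu).1.ne_zero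
    have hpe : p ∉ e := by
      intro hpe
      have h7 : p.Coprime M := by
        refine h5.coprime_dvd_right ?_
        rw [hq, ← hM, prod_insert hnot, show md M = M from if_neg hM0]
        exact dvd_mul_right _ _
      rw [hM] at h7
      have h8 := (Nat.coprime_prod_right_iff.1 h7) p hpe
      rw [Nat.coprime_self] at h8
      exact h4.one_lt.ne' h8
    have h9 := sym_one e he p h4 hAF.2.1 hpe h0
    rw [← hM] at h9
    have h10 : ch M p = cJ M p := by
      unfold ch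
      rw [if_neg hM0]
    rw [h10, h9] at hMp
    norm_num at hMp
  have h3 := sum_le_sum_of_subset_of_nonneg h2 (f := fun p : ℕ => (1 : ℝ) / p)
    fun i _ _ => by positivity
  linarith

/-- **different masks are separated** -/
theorem sep_F (hF : FF F) {M : ℕ} (V : Fin M → Finset ℕ) (hV : Function.Injective V)
    (hVp : ∀ i, ∀ u ∈ V i, u.Prime ∧ u % 4 = 1 ∧ u ∉ F) (f : ℕ → ZMod 2) :
    Sep (AF F) (fun _ : Fin M => f) V := by
  intro i j hij
  have he : ∀ r ∈ symmDiff (V i) (V j), r.Prime ∧ r % 4 = 1 := by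
    intro r hr
    rw [mem_symmDiff] at hr
    rcases hr with hr | hr
    · exact ⟨(hVp i r hr.1).1, (hVp i r hr.1).2.1⟩
    · exact ⟨(hVp j r hr.1).1, (hVp j r hr.1).2.1⟩
  have hd : Disjoint (symmDiff (V i) (V j)) F := by
    rw [Finset.disjoint_left]
    intro r hr
    rw [mem_symmDiff] at hr
    rcases hr with hr | hr
    · exact (hVp i r hr.1).2.2
    · exact (hVp j r hr.1).2.2
  have hne : (symmDiff (V i) (V j)).Nonempty := by
    rw [nonempty_iff_ne_empty]
    intro h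
    exact hij (hV (symmDiff_eq_bot.1 h))
  obtain ⟨δ, C, hδ, h⟩ := sep_e hF he hd hne
  refine ⟨δ, C, hδ, fun y hy => (h y hy).trans (le_of_eq ?_)⟩
  refine sum_congr (filter_congr fun p _ => ?_) fun _ _ => rfl
  have e2 : ∀ x y : ZMod 2, x + x + y = y := by decide
  unfold df
  rw [e2]

end

end Pool.Agent.V11291.Q49
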