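import Pool.Agent.Y698.SG.Uj
import Pool.Agent.Y698.SG.Ebb
import Pool.Agent.V11291.Q49.Cls

/-!
# The formula over `ℚ` modulo the primes above two
-/

set_option autoImplicit false
set_option linter.unusedSectionVars false

namespace Pool.Agent.V11291.Q49

open Pool.Agent.Y698 Pool.Agent.Y698.SG
open NumberField IsDedekindDomain WithZero WeierstrassCurve
open Pool.Agent.W189.NF Pool.Agent.TH936.CM Pool.Agent.TH936.PU
open Pool.Agent.H921R2.TatePole Pool.Agent.H82R3.EK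
open Pool.Agent.Y698.SG.Gx (mx)

/-- an auxiliary prime -/
theorem exists_aux (S : Finset ℕ) : ∃ r : ℕ, Inq r ∧ r ∉ S := by
  have h1 : IsUnit ((5 : ℕ) : ZMod 28) := (ZMod.isUnit_iff_coprime 5 28).2 (by norm_num)
  obtain ⟨p, hp, hpr, hpe⟩ := Nat.forall_exists_prime_gt_and_eq_mod h1 (S.sup id)
  have hm : p % 28 = 5 := by
    have := (ZMod.natCast_eq_natCast_iff' p 5 28).1 hpe
    omega
  have h4 : p % 4 = 1 := by omega
  refine ⟨p, ⟨hpr, h4, (J_seven hpr h4).2.1 ?_⟩, fun h => ?_⟩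
  · have h7 : Pool.Agent.V11291.GQ.ch 7 p = Pool.Agent.V11291.GQ.ch 7 5 := by
      refine Pool.Agent.Y475.CQ.cJ_mod 7 p 5 ?_
      show p % 7 = 5 % 7
      omega
    rw [h7]
    have e : Pool.Agent.V11291.GQ.ch 7 5 = ((jacobiSym ((5 : ℕ) : ℤ) 7 : ℤ) : ℝ) := rfl
    rw [e]
    norm_num
  · have : id p ≤ S.sup id := Finset.le_sup h
    simp only [id] at this
    omega

theorem normQ : @Normal ℚ ℚ _ _ DivisionRing.toRatAlgebra := by
  have h : (DivisionRing.toRatAlgebra : Algebra ℚ ℚ) = Algebra.id ℚ := Subsingleton.elim _ _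
  rw [h]
  exact normal_self ℚ

theorem finQ : @Module.finrank ℚ ℚ _ _ (DivisionRing.toRatAlgebra : Algebra ℚ ℚ).toModule = 1 := by
  have h : (DivisionRing.toRatAlgebra : Algebra ℚ ℚ) = Algebra.id ℚ := Subsingleton.elim _ _
  rw [h]
  exact Module.finrank_self ℚ

attribute [local instance] normQ

section
variable {r : ℕ} [hr : Fact r.Prime] (M : Type) [Field M] [NumberField M]
  [hM : IsCyclotomicExtension {r} ℚ M] [Algebra ℚ M]

include hM in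
/-- the characters of `ℚ` -/
theorem XK_eq_one (χ : XK r M ℚ) : χ = 1 := by
  have h1 : Nat.card (XK r M ℚ) = 1 := by
    rw [card_XK]
    exact finQ
  rw [Nat.card_eq_one_iff_unique] at h1
  obtain ⟨h2, -⟩ := h1
  exact h2.elim _ _

end

section
variable {Q P : Finset ℕ} {j : ℕ}

/-- the product of the Euler factors -/
theorem LS_eq (hQ : ∀ q ∈ Q, Inq q) (hP : ∀ p ∈ P, Spl p) (hj : ∏ q ∈ Q ∪ P, q = 1 + 4 * j)
    {F : ℂ → ℂ} (hF : ∀ z : ℂ, 3 / 2 < z.re → HasProd (fun p : Nat.Primes =>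
      (1 - bc p * ((∏ q ∈ Q ∪ P, qch q (p : ℕ)) * ((p : ℕ) : ℂ) ^ (-z)) +
      ec p * ((∏ q ∈ Q ∪ P, qch q (p : ℕ)) * ((p : ℕ) : ℂ) ^ (-z)) ^ 2)⁻¹) (F z)) (s : ℂ)
    (hs : 2 < s.re) : F s = (EX ℚ (j : ℚ)).LSeries s := by
  classical
  obtain ⟨r, hir, hrS⟩ := exists_aux (Q ∪ P)
  have : Fact r.Prime := ⟨hir.pr⟩
  have hM : IsCyclotomicExtension {r} ℚ (CyclotomicField r ℚ) := cyc_inst r
  have h7 : r ≠ 7 := by
    intro h
    apply hir.not_seven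
    rw [h]
    norm_num
  have hcard : Nat.card (XK r (CyclotomicField r ℚ) ℚ) = 1 := by
    rw [card_XK]
    exact finQ
  have hfin : Finite (XK r (CyclotomicField r ℚ) ℚ) :=
    Nat.finite_of_card_ne_zero (by rw [hcard]; exact one_ne_zero)
  let _ : Fintype (XK r (CyclotomicField r ℚ) ℚ) := Fintype.ofFinite _
  have hgp : ∀ q ∈ Q ∪ P, Gp q := by
    intro q hq
    rcases Finset.mem_union.1 hq with h1 | h1
    · exact Gp.of_inq (hQ q h1)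
    · exact Gp.of_spl (hP q h1)
  have hs' : 3 / 2 < s.re := by linarith
  have h1 := hF s hs'
  have h1' : HasProd (fun q : Nat.Primes => ∏ χ : XK r (CyclotomicField r ℚ) ℚ,
      EF (cc (χ : DirichletCharacter ℂ r) q * ∏ p ∈ Q ∪ P, qch p (q : ℕ)) s q) (F s) := by
    convert h1 using 2 with q
    rw [Finset.prod_eq_single (1 : XK r (CyclotomicField r ℚ) ℚ)
      (fun χ _ hχ => absurd (XK_eq_one (CyclotomicField r ℚ) χ) hχ)
      (fun h => absurd (Finset.mem_univ _) h)]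
    unfold cc EF
    rw [if_pos (show ((1 : XK r (CyclotomicField r ℚ) ℚ) : DirichletCharacter ℂ r) = 1 from rfl),
      one_mul]
  simp_rw [← prod_placesD (CyclotomicField r ℚ) ℚ h7 hgp hrS hj s] at h1'
  have h2 := (LSeries_hasProd (EX ℚ (j : ℚ)) hs).2
  have h3 := (Equiv.sigmaFiberEquiv (below (K := ℚ))).hasProd_iff.2 h2
  have h4 := h3.sigma (g := fun q : Nat.Primes =>
    ∏ v : {v : HeightOneSpectrum (𝓞 ℚ) // below v = q}, LFD j s v.1) (fun q => hasProd_fintype _)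
  exact h1'.unique h4

open Classical in
/-- the Tamagawa numbers -/
theorem tam_Q (hQ : ∀ q ∈ Q, Inq q) (hP : ∀ p ∈ P, Spl p) (hj : ∏ q ∈ Q ∪ P, q = 1 + 4 * j) :
    ∏ᶠ v : HeightOneSpectrum (𝓞 ℚ), tam (AX ℚ j) v = 2 ^ (1 + (Q.card + 2 * P.card)) := by
  obtain ⟨r, hir, hrS⟩ := exists_aux (Q ∪ P)
  have : Fact r.Prime := ⟨hir.pr⟩
  have hM : IsCyclotomicExtension {r} ℚ (CyclotomicField r ℚ) := cyc_inst r
  have h1 := Pool.Agent.Y890.SG.t_TAM r (CyclotomicField r ℚ) ℚ 0 finQ hir Q P j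
    (fun q hq => ⟨hQ q hq, fun h => hrS (h ▸ Finset.mem_union_left _ hq)⟩) hP hj
  rw [h1]
  congr 2
  have h2 : ∀ χ : XK r (CyclotomicField r ℚ) ℚ, χ ≠ 1 → mx Q P (χ : DirichletCharacter ℂ r) = 0 :=
    fun χ h => absurd (XK_eq_one (CyclotomicField r ℚ) χ) h
  rw [finsum_eq_single _ 1 h2]
  have h3 : ∀ q : ℕ, q.Prime → q ≠ r →
      ((1 : XK r (CyclotomicField r ℚ) ℚ) : DirichletCharacter ℂ r) (q : ZMod r) = 1 := by
    intro q hq hqr
    have h4 : ((1 : XK r (CyclotomicField r ℚ) ℚ) : DirichletCharacter ℂ r) = 1 := rfl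
    rw [h4]
    exact MulChar.one_apply ((ZMod.isUnit_iff_coprime q r).2
      ((Nat.coprime_primes hq hir.pr).2 hqr))
  unfold mx
  rw [Finset.filter_true_of_mem, Finset.filter_true_of_mem]
  · intro p hp
    exact h3 p (hP p hp).pr fun h => hrS (h ▸ Finset.mem_union_right _ hp)
  · intro q hq
    rw [h3 q (hQ q hq).pr fun h => hrS (h ▸ Finset.mem_union_left _ hq), one_pow]

/-- **the formula modulo the primes above two over `ℚ`** -/
theorem level_Q (hQ : ∀ q ∈ Q, Inq q) (hP : ∀ p ∈ P, Spl p) (hj : ∏ q ∈ Q ∪ P, q = 1 + 4 * j) :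
    ∃ Λ : ℂ → ℂ, Differentiable ℂ Λ ∧ (∀ s : ℂ, 2 < s.re → Λ s = (AX ℚ j).LSeries s) ∧
      ∀ (Γ : Type) [LinearOrderedCommGroupWithZero Γ] (v : Valuation ℂ Γ), v 2 < 1 →
        v (quoT ℚ j (Λ 1)) ≤ 1 ∧ (v (quoT ℚ j (Λ 1)) = 1 ↔ (mat Q P).det ≠ 0) := by
  classical
  obtain ⟨L, Ω, hL⟩ := exists_LD
  obtain ⟨r, hir, hrS⟩ := exists_aux (Q ∪ P)
  have : Fact r.Prime := ⟨hir.pr⟩
  have hM : IsCyclotomicExtension {r} ℚ (CyclotomicField r ℚ) := cyc_inst r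
  have htam := tam_Q hQ hP hj
  have hn0 : Module.finrank ℚ ℚ = 2 ^ 0 := finQ
  by_cases hdet : (mat Q P).det = 0
  · obtain ⟨F, g1, g2, g4⟩ := val_quad0 inp Pool.Agent.Y21.SG.t_NSI hQ hP hdet
    have h2 := LS_eq hQ hP hj g2
    refine ⟨F, g1, h2, fun Γ _ v hv => ?_⟩
    have hreal : (starRingEnd ℂ) (F 1) = F 1 := conj_val g1 (fun k => (AX ℚ j).LFunction k) h2
    have hΩ : v Ω ≠ 0 := (v.ne_zero_iff).2 hL.lat.ne
    have h20 : v 2 ≠ 0 := (v.ne_zero_iff).2 two_ne_zero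
    have k1 := val_all0 (N := 2 ^ 0) (e := Q.card + 2 * P.card) hreal hL
      (fun Γ _ v hv => by rw [pow_zero, pow_one]; exact g4 Γ v L Ω hL hv) v hv
    have key : v (quoT ℚ j (F 1)) < 1 := by
      rw [v_quoG (CyclotomicField r ℚ) ℚ hn0 hir htam hL (F 1) v hv]
      exact (div_lt_one₀ (zero_lt_iff.2 (mul_ne_zero (pow_ne_zero _ h20) (pow_ne_zero _ hΩ)))).2 k1
    exact ⟨key.le, iff_of_false key.ne (not_not.2 hdet)⟩
  · obtain ⟨F, g1, g2, g4⟩ := val_quad' inp hQ hP hdet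
    have h2 := LS_eq hQ hP hj g2
    refine ⟨F, g1, h2, fun Γ _ v hv => ?_⟩
    have hreal : (starRingEnd ℂ) (F 1) = F 1 := conj_val g1 (fun k => (AX ℚ j).LFunction k) h2
    have hΩ : v Ω ≠ 0 := (v.ne_zero_iff).2 hL.lat.ne
    have h20 : v 2 ≠ 0 := (v.ne_zero_iff).2 two_ne_zero
    have k1 := val_allD (N := 2 ^ 0) (e := Q.card + 2 * P.card) hreal hL
      (fun Γ _ v hv => by rw [pow_zero, pow_one]; exact g4 Γ v L Ω hL hv) v hv
    have key : v (quoT ℚ j (F 1)) = 1 := by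
      rw [v_quoG (CyclotomicField r ℚ) ℚ hn0 hir htam hL (F 1) v hv, k1]
      exact div_self (mul_ne_zero (pow_ne_zero _ h20) (pow_ne_zero _ hΩ))
    exact ⟨key.le, iff_of_true key hdet⟩

/-- the two models over `ℚ` -/
theorem trn_AX (j : ℕ) :
    (Finite (AX ℚ j).toAffine.Point ↔
      Finite (Pool.Agent.Z702.sh (-35 * ((1 + 4 * j : ℕ) : ℤ) ^ 2)
        (-98 * ((1 + 4 * j : ℕ) : ℤ) ^ 3)).toAffine.Point) ∧
    ((∀ x : Pool.Agent.TH841.SH.D.Sha (AX ℚ j), x + x = 0 → x = 0) ↔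
      ∀ x : Pool.Agent.TH841.SH.D.Sha (Pool.Agent.Z702.sh (-35 * ((1 + 4 * j : ℕ) : ℤ) ^ 2)
        (-98 * ((1 + 4 * j : ℕ) : ℤ) ^ 3)), x + x = 0 → x = 0) := by
  have hM : ((1 + 4 * j : ℕ) : ℤ) ≠ 0 := by
    rw [Nat.cast_ne_zero]
    omega
  obtain ⟨a1, a2⟩ := trn hM
  obtain ⟨b1, b2, -⟩ := Pool.Agent.Z702.f_TRN _ _ _ _ _ _ (vr_AX ℚ j) (AX_ne ℚ j)
  exact ⟨b1.symm.trans a1, b2.symm.trans a2⟩

/-- **rank zero and `Ш[2] = 0` over `ℚ`** -/
theorem equiv_Q (hQ : ∀ q ∈ Q, Inq q) (hP : ∀ p ∈ P, Spl p) (hj : ∏ q ∈ Q ∪ P, q = 1 + 4 * j) :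
    (mat Q P).det ≠ 0 ↔ (Finite (AX ℚ j).toAffine.Point ∧
      ∀ x : Pool.Agent.TH841.SH.D.Sha (AX ℚ j), x + x = 0 → x = 0) := by
  have H : HypC Q P := ⟨fun q hq => ⟨(hQ q hq).pr, (hQ q hq).m4, (hQ q hq).ns⟩,
    fun p hp => ⟨(hP p hp).pr, (hP p hp).m4, (hP p hp).sq⟩⟩
  obtain ⟨b1, b2⟩ := trn_AX j
  rw [b1, b2, ← hj, crit H, ker0_iff H, ← det_iff49 H]

end

end Pool.Agent.V11291.Q49
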