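import Pool.Agent.V11291.Q49.Alg
import Pool.Agent.Y698.SG.Cx

/-!
# The converse for the twists of `X_0(49)`, and the criterion
-/

set_option autoImplicit false
set_option linter.style.haveILetI false

open scoped Classical

namespace Pool.Agent.V11291.Q49

open Finset
open Pool.Agent.Y703.CQ (nr)
open Pool.Agent.Z702 (WZ sh LocI f_TRN f_COC f_LOT f_COB f_TOR sha_ex)
open Pool.Agent.TH841.SH.D
open Pool.Agent.Y698 (Inq)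
open Pool.Agent.Y698.SG (Spl)

/-- the classes of primes -/
structure HypC (Q P : Finset ℕ) : Prop where
  hQ : ∀ q ∈ Q, q.Prime ∧ q % 4 = 1 ∧ ¬ IsSquare (-7 : ZMod q)
  hP : ∀ p ∈ P, p.Prime ∧ p % 4 = 1 ∧ IsSquare (-7 : ZMod p)

/-- the kernel is trivial -/
def Ker0 (Q P : Finset ℕ) : Prop := ∀ J ⊆ P, (∀ i ∈ P \ J, ∑ j ∈ J, nr i j = 0) →
  (∀ i ∈ J, n4 i + ∑ q ∈ Q, nr i q + ∑ j ∈ P \ J, nr i j = 0) → J = ∅

theorem prJ {J : Finset ℕ} (hJ : ∀ p ∈ J, p.Prime) (hne : J.Nonempty) :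
    ¬ IsSquare (((∏ p ∈ J, p : ℕ) : ℤ) : ℚ) := by
  have h := Pool.Agent.Z702.ns_J hJ hne
  unfold Pool.Agent.Z700.pr at h
  exact h

theorem nq_nr : Pool.Agent.Y698.SG.nq = nr := rfl

theorem bwd {Q P : Finset ℕ} (H : HypC Q P)
    (hf : Finite (sh (-35 * ((∏ q ∈ Q ∪ P, q : ℕ) : ℤ) ^ 2)
      (-98 * ((∏ q ∈ Q ∪ P, q : ℕ) : ℤ) ^ 3)).toAffine.Point)
    (hsh : ∀ x : Sha (sh (-35 * ((∏ q ∈ Q ∪ P, q : ℕ) : ℤ) ^ 2)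
      (-98 * ((∏ q ∈ Q ∪ P, q : ℕ) : ℤ) ^ 3)), x + x = 0 → x = 0) : Ker0 Q P := by
  intro J hJP k1 k2
  by_contra hne0
  have hJne : J.Nonempty := Finset.nonempty_iff_ne_empty.2 hne0
  have hP' : ∀ p ∈ P, Spl p := fun p hp => ⟨(H.hP p hp).1, by have := (H.hP p hp).2.1; omega,
    (H.hP p hp).2.2⟩
  have hQ' : ∀ q ∈ Q, Inq q := fun q hq => ⟨(H.hQ q hq).1, (H.hQ q hq).2.1, (H.hQ q hq).2.2⟩
  obtain ⟨l1, l2⟩ := Pool.Agent.Y698.SG.loc_all hQ' hP' hJP k1 k2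
  have hJp : ∀ p ∈ J, p.Prime := fun p hp => (H.hP p (hJP hp)).1
  obtain ⟨D, hD⟩ : ∃ D : ℤ, D = ((∏ q ∈ Q ∪ P, q : ℕ) : ℤ) := ⟨_, rfl⟩
  have hpr : ∀ q ∈ Q ∪ P, q.Prime := by
    intro q hq
    rcases Finset.mem_union.1 hq with h | h
    · exact (H.hQ q h).1
    · exact (H.hP q h).1
  have hD0 : D ≠ 0 := by
    rw [hD]
    exact_mod_cast Finset.prod_ne_zero_iff.2 fun q hq => (hpr q hq).ne_zero
  rw [← hD] at hf hsh l1 l2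
  have hD2 : 0 < D ^ 2 := by positivity
  have hab : (21 * D) ^ 2 - 4 * (112 * D ^ 2) < 0 := by nlinarith
  have hd0 : 0 < ∏ q ∈ J, q := Finset.prod_pos fun q hq => (hJp q hq).pos
  obtain ⟨t1, t2⟩ := trn hD0
  obtain ⟨x, hx0, hx2⟩ := sha_ex f_COC f_LOT f_COB f_TOR (d := ((∏ q ∈ J, q : ℕ) : ℤ))
    (by positivity) hab.ne (ns_b hD0) (ns_ab hD0) (by exact_mod_cast hd0.ne') (prJ hJp hJne) (by
      rintro ⟨r, hr⟩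
      have h5 : (((21 * D : ℤ) : ℚ) ^ 2 - 4 * ((112 * D ^ 2 : ℤ) : ℚ)) < 0 := by
        exact_mod_cast hab
      have h6 : (0 : ℚ) < (((∏ q ∈ J, q : ℕ) : ℤ) : ℚ) := by exact_mod_cast hd0
      nlinarith [mul_self_nonneg r, mul_pos h6 (neg_pos.2 h5)]) (fun p _ => l1 p) l2 (t1.2 hf)
  exact hx0 (t2.2 hsh x hx2)

/-- **the criterion** -/
theorem crit {Q P : Finset ℕ} (H : HypC Q P) :
    (Finite (sh (-35 * ((∏ q ∈ Q ∪ P, q : ℕ) : ℤ) ^ 2)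
      (-98 * ((∏ q ∈ Q ∪ P, q : ℕ) : ℤ) ^ 3)).toAffine.Point ∧
    ∀ x : Sha (sh (-35 * ((∏ q ∈ Q ∪ P, q : ℕ) : ℤ) ^ 2)
      (-98 * ((∏ q ∈ Q ∪ P, q : ℕ) : ℤ) ^ 3)), x + x = 0 → x = 0) ↔ Ker0 Q P := by
  constructor
  · rintro ⟨h1, h2⟩
    exact bwd H h1 h2
  · intro h
    exact fwd ⟨H.hQ, H.hP, h⟩

end Pool.Agent.V11291.Q49
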