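import Pool.Agent.V11291.Q49.Lf
import Pool.Agent.V11291.GQ.Stm

/-!
# The criterion and the nonvanishing in terms of the set of prime factors
-/

set_option autoImplicit false
set_option linter.unusedVariables false

open scoped Classical

namespace Pool.Agent.V11291.Q49

open Finset
open Pool.Agent.Y703.CQ (nr)
open Pool.Agent.V11291.GQ (cu Sol Gd)
open Pool.Agent.Z702 (sh)
open Pool.Agent.TH841.SH.D (Sha)
open Pool.Agent.Y687 (fac)

/-- the primes which give rows of the matrix -/
def A49 (p : ℕ) : Prop := p.Prime ∧ p % 4 = 1 ∧ IsSquare (-7 : ZMod p)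

/-- the other primes -/
def B49 (p : ℕ) : Prop := p.Prime ∧ p % 4 = 1 ∧ ¬ IsSquare (-7 : ZMod p)

section
variable {Q P : Finset ℕ}

theorem HypC.disj (H : HypC Q P) : Disjoint Q P := by
  rw [Finset.disjoint_left]
  intro q hq hp
  exact (H.hQ q hq).2.2 (H.hP q hp).2.2

theorem nr_self' (i : ℕ) : nr i i = 0 := by
  unfold nr
  rw [if_pos]
  rw [ZMod.natCast_self]
  exact ⟨0, by ring⟩

theorem sol_row (H : HypC Q P) (x : ℕ → ZMod 2) (i : ℕ) :
    ∑ q ∈ Q ∪ P, nr i q * (cu A49 x q + x i) + n4 i * x i =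
      (n4 i + ∑ q ∈ Q, nr i q) * x i + ∑ q ∈ P, nr i q * (x q + x i) := by
  rw [Finset.sum_union H.disj]
  have e1 : ∑ q ∈ Q, nr i q * (cu A49 x q + x i) = (∑ q ∈ Q, nr i q) * x i := by
    rw [Finset.sum_mul]
    refine Finset.sum_congr rfl fun q hq => ?_
    unfold cu
    rw [if_neg (fun h => (H.hQ q hq).2.2 h.2.2), zero_add]
  have e2 : ∑ q ∈ P, nr i q * (cu A49 x q + x i) = ∑ q ∈ P, nr i q * (x q + x i) := by
    refine Finset.sum_congr rfl fun q hq => ?_
    unfold cu
    rw [if_pos (show A49 q from H.hP q hq)]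
  rw [e1, e2]
  ring

theorem mem_P (H : HypC Q P) {p : ℕ} (hp : p ∈ Q ∪ P) (h8 : A49 p) : p ∈ P := by
  rcases Finset.mem_union.1 hp with h | h
  · exact absurd h8.2.2 (H.hQ p h).2.2
  · exact h

theorem ker0_iff (H : HypC Q P) : Ker0 Q P ↔ Gd A49 n4 (Q ∪ P) := by
  constructor
  · intro hK x hx p hp h8
    have hJ := hK (P.filter fun p => x p ≠ 0) (Finset.filter_subset _ _) ?_ ?_
    · by_contra hne
      have : p ∈ P.filter fun p => x p ≠ 0 := Finset.mem_filter.2 ⟨mem_P H hp h8, hne⟩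
      rw [hJ] at this
      exact absurd this (Finset.notMem_empty p)
    · intro i hi
      rw [Finset.mem_sdiff, Finset.mem_filter] at hi
      have hxi : x i = 0 := by
        by_contra h
        exact hi.2 ⟨hi.1, h⟩
      have h1 := hx i (Finset.mem_union_right _ hi.1) (H.hP i hi.1)
      rw [sol_row H, hxi, mul_zero, zero_add] at h1
      refine Eq.trans ?_ h1
      rw [Finset.sum_filter]
      refine Finset.sum_congr rfl fun q _ => ?_
      rw [add_zero]
      split_ifs with h
      · have : x q = 1 := by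
          revert h
          generalize x q = y
          revert y
          decide
        rw [this, mul_one]
      · rw [not_not.1 h, mul_zero]
    · intro i hi
      rw [Finset.mem_filter] at hi
      have hxi : x i = 1 := by
        have h := hi.2
        revert h
        generalize x i = y
        revert y
        decide
      have h1 := hx i (Finset.mem_union_right _ hi.1) (H.hP i hi.1)
      rw [sol_row H, hxi, mul_one] at h1
      refine Eq.trans ?_ h1
      congr 1
      have e : P \ (P.filter fun p => x p ≠ 0) = P.filter fun p => x p = 0 := by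
        ext q
        rw [Finset.mem_sdiff, Finset.mem_filter, Finset.mem_filter]
        constructor
        · rintro ⟨h2, h3⟩
          refine ⟨h2, ?_⟩
          by_contra h4
          exact h3 ⟨h2, h4⟩
        · rintro ⟨h2, h3⟩
          exact ⟨h2, fun h4 => h4.2 h3⟩
      rw [e, Finset.sum_filter]
      refine Finset.sum_congr rfl fun q _ => ?_
      split_ifs with h
      · rw [h, zero_add, mul_one]
      · have : x q = 1 := by
          revert h
          generalize x q = y
          revert y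
          decide
        rw [this, show (1 : ZMod 2) + 1 = 0 by decide, mul_zero]
  · intro hG J hJ k1 k2
    obtain ⟨x, hxd⟩ : ∃ x : ℕ → ZMod 2, x = fun p => if p ∈ J then 1 else 0 := ⟨_, rfl⟩
    have hx0 : ∀ p, p ∉ J → x p = 0 := fun p hp => by rw [hxd]; exact if_neg hp
    have hx1 : ∀ p, p ∈ J → x p = 1 := fun p hp => by rw [hxd]; exact if_pos hp
    have hS : Sol A49 n4 (Q ∪ P) x := by
      intro p hp h8
      have hpP := mem_P H hp h8
      rw [sol_row H]
      by_cases hpJ : p ∈ J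
      · rw [hx1 p hpJ, mul_one]
        refine Eq.trans ?_ (k2 p hpJ)
        congr 1
        rw [← Finset.sum_sdiff hJ]
        have e1 : ∑ q ∈ J, nr p q * (x q + 1) = 0 := by
          refine Finset.sum_eq_zero fun q hq => ?_
          rw [hx1 q hq, show (1 : ZMod 2) + 1 = 0 by decide, mul_zero]
        rw [e1, add_zero]
        refine Finset.sum_congr rfl fun q hq => ?_
        rw [hx0 q (Finset.mem_sdiff.1 hq).2, zero_add, mul_one]
      · rw [hx0 p hpJ, mul_zero, zero_add]
        refine Eq.trans ?_ (k1 p (Finset.mem_sdiff.2 ⟨hpP, hpJ⟩))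
        rw [← Finset.sum_sdiff hJ]
        have e1 : ∑ q ∈ P \ J, nr p q * (x q + 0) = 0 := by
          refine Finset.sum_eq_zero fun q hq => ?_
          rw [hx0 q (Finset.mem_sdiff.1 hq).2, add_zero, mul_zero]
        rw [e1, zero_add]
        refine Finset.sum_congr rfl fun q hq => ?_
        rw [hx1 q hq, add_zero, mul_one]
    rw [Finset.eq_empty_iff_forall_notMem]
    intro p hp
    have h1 := hG x hS p (Finset.mem_union_right _ (hJ hp)) (H.hP p (hJ hp))
    rw [hx1 p hp] at h1
    exact one_ne_zero h1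

theorem mat_row (H : HypC Q P) (x : ℕ → ZMod 2) (i : P) :
    (Pool.Agent.Y698.SG.mat Q P).mulVec (fun j => x j) i =
      ∑ q ∈ Q ∪ P, nr i q * (cu A49 x q + x i) + n4 i * x i := by
  rw [sol_row H]
  have e0 : ∑ q ∈ P, nr i q * (x q + x i) = ∑ q ∈ P.erase i, nr i q * x q +
      (∑ q ∈ P.erase i, nr i q) * x i := by
    rw [← Finset.add_sum_erase P _ i.2, nr_self', zero_mul, zero_add, Finset.sum_mul,
      ← Finset.sum_add_distrib]
    refine Finset.sum_congr rfl fun q _ => ?_
    ring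
  rw [e0]
  unfold Matrix.mulVec dotProduct
  have e1 : ∑ j : P, Pool.Agent.Y698.SG.mat Q P i j * x j =
      ∑ j ∈ P, (if (i : ℕ) = j then n4 i + ∑ q ∈ Q, nr i q + ∑ p ∈ P.erase i, nr i p
        else nr i j) * x j := by
    rw [← Finset.sum_coe_sort P (fun j : ℕ => (if (i : ℕ) = j then n4 i + ∑ q ∈ Q, nr i q +
      ∑ p ∈ P.erase i, nr i p else nr i j) * x j)]
    refine Finset.sum_congr rfl fun j _ => ?_
    congr 1
    unfold Pool.Agent.Y698.SG.mat
    rw [Matrix.of_apply]
    by_cases h : i = j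
    · rw [if_pos h, if_pos (congrArg Subtype.val h)]
      rfl
    · rw [if_neg h, if_neg (fun h2 => h (Subtype.ext h2))]
      rfl
  rw [e1, ← Finset.add_sum_erase P _ i.2, if_pos rfl]
  have e2 : ∑ j ∈ P.erase (i : ℕ), (if (i : ℕ) = j then n4 i + ∑ q ∈ Q, nr i q +
      ∑ p ∈ P.erase (i : ℕ), nr i p else nr i j) * x j = ∑ j ∈ P.erase (i : ℕ), nr i j * x j := by
    refine Finset.sum_congr rfl fun j hj => ?_
    rw [if_neg (fun h => (Finset.mem_erase.1 hj).1 h.symm)]
  rw [e2]
  ring

theorem det_iff49 (H : HypC Q P) : (Pool.Agent.Y698.SG.mat Q P).det ≠ 0 ↔ Gd A49 n4 (Q ∪ P) := by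
  have key : ∀ x : ℕ → ZMod 2, Sol A49 n4 (Q ∪ P) x ↔
      (Pool.Agent.Y698.SG.mat Q P).mulVec (fun j => x j) = 0 := by
    intro x
    constructor
    · intro h
      funext i
      rw [mat_row H, Pi.zero_apply]
      exact h i (Finset.mem_union_right _ i.2) (H.hP i i.2)
    · intro h p hp hp8
      have h1 := congrFun h ⟨p, mem_P H hp hp8⟩
      rw [mat_row H, Pi.zero_apply] at h1
      exact h1
  constructor
  · intro hdet x hx p hp hp8
    rw [key] at hx
    by_contra hne
    apply hdet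
    rw [← Matrix.exists_mulVec_eq_zero_iff]
    refine ⟨_, ?_, hx⟩
    intro h
    exact hne (congrFun h ⟨p, mem_P H hp hp8⟩)
  · intro hG h0
    obtain ⟨v, hv, hv0⟩ := Matrix.exists_mulVec_eq_zero_iff.2 h0
    apply hv
    obtain ⟨x, hx⟩ : ∃ x : ℕ → ZMod 2, x = fun p => if h : p ∈ P then v ⟨p, h⟩ else 0 := ⟨_, rfl⟩
    have e : (fun j : P => x j) = v := by
      funext j
      rw [hx]
      simp only [j.2, dite_true]
    have h1 := hG x ((key x).2 (by rw [e]; exact hv0))
    funext j
    have h2 := h1 j (Finset.mem_union_right _ j.2) (H.hP j j.2)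
    rw [← e]
    exact h2

/-- **rank zero and `Ш[2] = 0`** -/
theorem rank49 (H : HypC Q P) {D : ℤ} (hD : D = ((∏ q ∈ Q ∪ P, q : ℕ) : ℤ)) :
    (Finite (sh (-35 * D ^ 2) (-98 * D ^ 3)).toAffine.Point ∧
      ∀ x : Sha (sh (-35 * D ^ 2) (-98 * D ^ 3)), x + x = 0 → x = 0) ↔ Gd A49 n4 (Q ∪ P) := by
  rw [hD, crit H, ker0_iff H]

/-- **the `L`-function** -/
theorem lf49 (H : HypC Q P) (hG : Gd A49 n4 (Q ∪ P)) {D : ℤ} (hD : D = ((∏ q ∈ Q ∪ P, q : ℕ) : ℤ)) :
    ∃ f : ℂ → ℂ, Differentiable ℂ f ∧ (∀ s : ℂ, (3 : ℝ) / 2 < s.re →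
      HasProd (fun l : {l : ℕ // l.Prime ∧
          ¬ ((l : ℤ) ∣ 2 * (4 * (-35 * D ^ 2) ^ 3 + 27 * (-98 * D ^ 3) ^ 2))} =>
          fac (-35 * D ^ 2) (-98 * D ^ 3) s l) (f s)) ∧ f 1 ≠ 0 :=
  lf H ((det_iff49 H).2 hG) hD

end

end Pool.Agent.V11291.Q49
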