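import Pool.Agent.V11291.Q49.Conv
import Pool.Agent.Y698.SG.Inp
import Pool.Agent.Y687.K2.RankForm

/-!
# The value at `1` of the `L`-function of the twists of `X_0(49)`
-/

set_option autoImplicit false

open scoped Classical

namespace Pool.Agent.V11291.Q49

open Finset
open Pool.Agent.Y698
open Pool.Agent.Y698.SG
open Pool.Agent.Y687 (fac hasProd_transfer nrm ne_zero_of_norm)
open H667R3 Pool.Agent.W192.HK Pool.Agent.TH936.CM Pool.Agent.TH936.PU
open W165.CE (pw)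

theorem Gp_of {Q P : Finset ℕ} (H : HypC Q P) : ∀ q ∈ Q ∪ P, Gp q := by
  intro q hq
  rcases Finset.mem_union.1 hq with h | h
  · exact Gp.of_inq ⟨(H.hQ q h).1, (H.hQ q h).2.1, (H.hQ q h).2.2⟩
  · exact Gp.of_spl ⟨(H.hP q h).1, by have := (H.hP q h).2.1; omega, (H.hP q h).2.2⟩

/-- the affine points of the two models -/
theorem card_models {p : ℕ} (hp : p.Prime) (hp2 : p ≠ 2) (j : ℕ) :
    Nat.card (AP (EX (ZMod p) (j : ZMod p))) = Nat.card {q : ZMod p × ZMod p //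
      q.2 ^ 2 = q.1 ^ 3 + ((-35 * (1 + 4 * (j : ℤ)) ^ 2 : ℤ) : ZMod p) * q.1 +
        ((-98 * (1 + 4 * (j : ℤ)) ^ 3 : ℤ) : ZMod p)} := by
  have : Fact p.Prime := ⟨hp⟩
  have h2 : (2 : ZMod p) ≠ 0 := by
    intro h
    have : ((2 : ℕ) : ZMod p) = 0 := by exact_mod_cast h
    rw [ZMod.natCast_eq_zero_iff] at this
    exact hp2 ((Nat.prime_dvd_prime_iff_eq hp Nat.prime_two).1 this)
  have h4 : (4 : ZMod p) ≠ 0 := by
    rw [show (4 : ZMod p) = 2 ^ 2 by norm_num]
    exact pow_ne_zero _ h2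
  have h8 : (8 : ZMod p) ≠ 0 := by
    rw [show (8 : ZMod p) = 2 ^ 3 by norm_num]
    exact pow_ne_zero _ h2
  have key : ∀ x y : ZMod p, (EX (ZMod p) (j : ZMod p)).toAffine.Equation x y ↔
      (8 * y + 4 * x) ^ 2 = (4 * x - (1 + 4 * (j : ZMod p))) ^ 3 +
        ((-35 * (1 + 4 * (j : ℤ)) ^ 2 : ℤ) : ZMod p) * (4 * x - (1 + 4 * (j : ZMod p))) +
        ((-98 * (1 + 4 * (j : ℤ)) ^ 3 : ℤ) : ZMod p) := by
    intro x y
    rw [WeierstrassCurve.Affine.equation_iff]
    unfold EX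
    push_cast
    have e : (64 : ZMod p) * (y ^ 2 + 1 * x * y + 0 * y) - 64 * (x ^ 3 +
        -(1 + 3 * (j : ZMod p)) * x ^ 2 + -2 * (1 + 4 * (j : ZMod p)) ^ 2 * x +
        -(1 + 4 * (j : ZMod p)) ^ 3) = (8 * y + 4 * x) ^ 2 -
        ((4 * x - (1 + 4 * (j : ZMod p))) ^ 3 +
        (-35 * (1 + 4 * (j : ZMod p)) ^ 2) * (4 * x - (1 + 4 * (j : ZMod p))) +
        (-98 * (1 + 4 * (j : ZMod p)) ^ 3)) := by ring
    have h64 : (64 : ZMod p) ≠ 0 := by
      rw [show (64 : ZMod p) = 2 ^ 6 by norm_num]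
      exact pow_ne_zero _ h2
    constructor
    · intro h
      rw [← sub_eq_zero, ← e, ← mul_sub, sub_eq_zero.2 h, mul_zero]
    · intro h
      rw [← sub_eq_zero, ← e, ← mul_sub] at h
      exact sub_eq_zero.1 ((mul_eq_zero.1 h).resolve_left h64)
  refine Nat.card_congr ⟨fun Q => ⟨(4 * Q.1.1 - (1 + 4 * (j : ZMod p)), 8 * Q.1.2 + 4 * Q.1.1),
    (key _ _).1 Q.2⟩, fun q => ⟨((q.1.1 + (1 + 4 * (j : ZMod p))) / 4,
      (q.1.2 - (q.1.1 + (1 + 4 * (j : ZMod p)))) / 8), ?_⟩, ?_, ?_⟩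
  · apply (key _ _).2
    have e1 : 4 * ((q.1.1 + (1 + 4 * (j : ZMod p))) / 4) = q.1.1 + (1 + 4 * (j : ZMod p)) :=
      mul_div_cancel₀ _ h4
    have e2 : 8 * ((q.1.2 - (q.1.1 + (1 + 4 * (j : ZMod p)))) / 8) =
      q.1.2 - (q.1.1 + (1 + 4 * (j : ZMod p))) := mul_div_cancel₀ _ h8
    rw [e1, e2]
    have := q.2
    rw [show q.1.2 - (q.1.1 + (1 + 4 * (j : ZMod p))) + (q.1.1 + (1 + 4 * (j : ZMod p))) = q.1.2
      by ring, show q.1.1 + (1 + 4 * (j : ZMod p)) - (1 + 4 * (j : ZMod p)) = q.1.1 by ring]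
    exact this
  · rintro ⟨⟨x, y⟩, h⟩
    apply Subtype.ext
    show (_, _) = (x, y)
    rw [Prod.mk.injEq]
    constructor
    · field_simp
      ring
    · field_simp
      ring
  · rintro ⟨⟨x, y⟩, h⟩
    apply Subtype.ext
    show (_, _) = (x, y)
    rw [Prod.mk.injEq]
    constructor
    · field_simp
      ring
    · field_simp
      ring

theorem bad_iff {D : ℤ} {l : ℕ} (hl : l.Prime) :
    (l : ℤ) ∣ 2 * (4 * (-35 * D ^ 2) ^ 3 + 27 * (-98 * D ^ 3) ^ 2) ↔ l = 2 ∨ l = 7 ∨ (l : ℤ) ∣ D := by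
  have hlP : Prime (l : ℤ) := Nat.prime_iff_prime_int.1 hl
  have e : 2 * (4 * (-35 * D ^ 2) ^ 3 + 27 * (-98 * D ^ 3) ^ 2) = ((2 ^ 9 * 7 ^ 3 : ℕ) : ℤ) * D ^ 6 := by
    push_cast
    ring
  rw [e]
  constructor
  · intro h
    rcases hlP.dvd_or_dvd h with h | h
    · rw [Int.natCast_dvd_natCast] at h
      rcases (Nat.Prime.dvd_mul hl).1 h with h | h
      · exact Or.inl ((Nat.prime_dvd_prime_iff_eq hl Nat.prime_two).1 (hl.dvd_of_dvd_pow h))
      · exact Or.inr (Or.inl ((Nat.prime_dvd_prime_iff_eq hl (by norm_num)).1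
          (hl.dvd_of_dvd_pow h)))
    · exact Or.inr (Or.inr (hlP.dvd_of_dvd_pow h))
  · rintro (rfl | rfl | h)
    · exact Dvd.dvd.mul_right (by norm_num) _
    · exact Dvd.dvd.mul_right (by norm_num) _
    · exact Dvd.dvd.mul_left (dvd_pow h (by norm_num)) _

theorem lf {Q P : Finset ℕ} (H : HypC Q P) (hdet : (mat Q P).det ≠ 0) {D : ℤ}
    (hD : D = ((∏ q ∈ Q ∪ P, q : ℕ) : ℤ)) :
    ∃ f : ℂ → ℂ, Differentiable ℂ f ∧ (∀ s : ℂ, (3 : ℝ) / 2 < s.re →
      HasProd (fun l : {l : ℕ // l.Prime ∧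
          ¬ ((l : ℤ) ∣ 2 * (4 * (-35 * D ^ 2) ^ 3 + 27 * (-98 * D ^ 3) ^ 2))} =>
          fac (-35 * D ^ 2) (-98 * D ^ 3) s l) (f s)) ∧ f 1 ≠ 0 := by
  have hQ : ∀ q ∈ Q, Inq q := fun q hq => ⟨(H.hQ q hq).1, (H.hQ q hq).2.1, (H.hQ q hq).2.2⟩
  have hP : ∀ p ∈ P, Spl p := fun p hp => ⟨(H.hP p hp).1, by have := (H.hP p hp).2.1; omega,
    (H.hP p hp).2.2⟩
  have hG := Gp_of H
  obtain ⟨F, g1, g2, g4⟩ := val_quad' inp hQ hP hdet
  obtain ⟨ε, hε⟩ : ∃ ε : ℂ, ε = ∏ q ∈ Q ∪ P, qch q (2 : ℤ) := ⟨_, rfl⟩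
  have hε2 : ε ^ 2 = 1 := by
    rw [hε]
    refine qprod_sq (fun q hq => (hG q hq).pr) fun q hq hd => ?_
    have h1 : q ∣ 2 := by exact_mod_cast hd
    have h2 := (Nat.prime_dvd_prime_iff_eq (hG q hq).pr Nat.prime_two).1 h1
    have := (hG q hq).m4
    rw [h2] at this
    norm_num at this
  have hnε : ‖ε‖ = 1 := by
    have h1 : ‖ε‖ ^ 2 = 1 := by rw [← norm_pow, hε2, norm_one]
    have h2 := norm_nonneg ε
    nlinarith
  have hD4 : D % 4 = 1 := by
    have hc : ∀ S : Finset ℕ, (∀ q ∈ S, q % 4 = 1) → (∏ q ∈ S, q) % 4 = 1 := by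
      intro S
      induction S using Finset.induction_on with
      | empty => intro _; rw [Finset.prod_empty]; rfl
      | insert a S ha ih =>
        intro h
        rw [Finset.prod_insert ha, Nat.mul_mod, h a (Finset.mem_insert_self a S),
          ih fun q hq => h q (Finset.mem_insert_of_mem hq)]
    have := hc _ fun q hq => (hG q hq).m4
    rw [hD]
    omega
  obtain ⟨j, hj⟩ : ∃ j : ℕ, ∏ q ∈ Q ∪ P, q = 1 + 4 * j := by
    refine ⟨(∏ q ∈ Q ∪ P, q) / 4, ?_⟩
    have : (∏ q ∈ Q ∪ P, q) % 4 = 1 := by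
      rw [hD] at hD4
      omega
    omega
  have hDj : D = 1 + 4 * (j : ℤ) := by
    rw [hD, hj]
    push_cast
    rfl
  refine ⟨fun z => F z * (1 - ε * ((2 : ℕ) : ℂ) ^ (-z) + 2 * (((2 : ℕ) : ℂ) ^ (-z)) ^ 2), ?_, ?_, ?_⟩
  · refine g1.mul (((differentiable_const _).sub ?_).add ?_)
    · exact (Differentiable.const_cpow (by fun_prop) (Or.inl (by norm_num))).const_mul _
    · exact ((Differentiable.const_cpow (by fun_prop) (Or.inl (by norm_num))).pow 2).const_mul _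
  · intro s hs
    have hs1 : 1 < s.re := by linarith
    refine hasProd_transfer (fun l => ¬ ((l : ℤ) ∣ 2 * (4 * (-35 * D ^ 2) ^ 3 +
      27 * (-98 * D ^ 3) ^ 2))) (fac (-35 * D ^ 2) (-98 * D ^ 3) s) _ ?_
    have h1 := g2 s hs
    obtain ⟨w, hw⟩ : ∃ w : ℂ, w = 1 - ε * ((2 : ℕ) : ℂ) ^ (-s) + 2 * (((2 : ℕ) : ℂ) ^ (-s)) ^ 2 :=
      ⟨_, rfl⟩
    have hw0 : w ≠ 0 := by
      have h2 := nrm (p := 2) (by norm_num) hs1
      obtain ⟨X, hX⟩ : ∃ X : ℂ, X = ((2 : ℕ) : ℂ) ^ (-s) := ⟨_, rfl⟩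
      rw [← hX] at h2 hw
      have h3 : ‖X‖ ^ 2 < 1 / 8 := by
        have h4 : ‖X‖ = (2 : ℝ) ^ (-s.re) := by
          rw [hX, Complex.norm_natCast_cpow_of_pos (by norm_num), Complex.neg_re]
          norm_num
        rw [h4, ← Real.rpow_natCast, ← Real.rpow_mul (by norm_num)]
        have h5 : (1 / 8 : ℝ) = (2 : ℝ) ^ (-3 : ℝ) := by
          rw [Real.rpow_neg (by norm_num)]
          norm_num
        rw [h5]
        apply Real.rpow_lt_rpow_of_exponent_lt (by norm_num)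
        push_cast
        linarith
      rw [hw, show 1 - ε * X + 2 * X ^ 2 = 1 + (-(ε * X) + 2 * X ^ 2) by ring]
      apply ne_zero_of_norm
      refine lt_of_le_of_lt (norm_add_le _ _) ?_
      rw [norm_neg, norm_mul, hnε, one_mul, norm_mul, norm_pow]
      have h6 : ‖(2 : ℂ)‖ = 2 := by simp
      rw [h6]
      push_cast at h2
      linarith
    have h2 : HasProd (fun p : Nat.Primes => if (p : ℕ) = 2 then w else 1) w := by
      obtain ⟨t, ht⟩ : ∃ t : Nat.Primes, (t : ℕ) = 2 := ⟨⟨2, Nat.prime_two⟩, rfl⟩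
      have h3 := hasProd_ite_eq t w
      refine (congrArg (fun g => HasProd g w) (funext fun p => ?_)).mp h3
      by_cases hp : p = t
      · rw [if_pos hp, if_pos (by rw [hp, ht])]
      · rw [if_neg hp, if_neg (fun h => hp (Subtype.ext (by rw [h, ht])))]
    have h3 := h1.mul h2
    rw [hw] at h3
    refine (congrArg (fun g => HasProd g _) (funext fun p => ?_)).mp h3
    have hp : (p : ℕ).Prime := p.2
    have hb := bad_iff (D := D) hp
    by_cases hp2 : (p : ℕ) = 2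
    · rw [if_neg (not_not.2 (hb.2 (Or.inl hp2))), if_pos hp2, hp2, bc_two]
      have e2 : ec 2 = 2 := by unfold ec; rw [if_neg (by norm_num)]; norm_num
      have e3 : ((2 : ℕ) : ℤ) = 2 := rfl
      rw [e2, e3, ← hε, mul_pow, hε2, one_mul, one_mul, ← hw]
      exact inv_mul_cancel₀ hw0
    · rw [if_neg hp2, mul_one]
      by_cases hp7 : (p : ℕ) = 7
      · rw [if_neg (not_not.2 (hb.2 (Or.inr (Or.inl hp7)))), hp7]
        have e1 : bc 7 = 0 := by
          have := bc_seven 0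
          rwa [zero_add, pow_one] at this
        have e2 : ec 7 = 0 := by unfold ec; rw [if_pos rfl]
        rw [e1, e2]
        norm_num
      · by_cases hpD : ((p : ℕ) : ℤ) ∣ D
        · rw [if_neg (not_not.2 (hb.2 (Or.inr (Or.inr hpD))))]
          have hpS : (p : ℕ) ∈ Q ∪ P := by
            rw [hD, Int.natCast_dvd_natCast] at hpD
            obtain ⟨q, hq, h4⟩ := (Prime.dvd_finsetProd_iff hp.prime _).1 hpD
            rwa [(Nat.prime_dvd_prime_iff_eq hp (hG q hq).pr).1 h4]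
          have h5 : ∏ q ∈ Q ∪ P, qch q ((p : ℕ) : ℤ) = 0 := by
            refine Finset.prod_eq_zero hpS ?_
            rcases qch_val hp ((p : ℕ) : ℤ) with h | h
            · exact h.2
            · exact absurd dvd_rfl h.1
          rw [h5]
          norm_num
        · rw [if_pos (fun h => by
            rcases hb.1 h with h | h | h
            · exact hp2 h
            · exact hp7 h
            · exact hpD h)]
          have hpS : (p : ℕ) ∉ Q ∪ P := by
            intro h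
            apply hpD
            rw [hD, Int.natCast_dvd_natCast]
            exact Finset.dvd_prod_of_mem _ h
          have : Fact (p : ℕ).Prime := ⟨hp⟩
          have h5 := trace_tw (ZMod (p : ℕ)) hp hp7 one_ne_zero
            (by rw [Nat.card_zmod, pow_one]) hG hpS hj
          rw [Nat.card_zmod, card_models hp hp2, ← hDj, pow_one] at h5
          have e : pw (bc (p : ℕ)) (ec (p : ℕ)) 1 = bc (p : ℕ) := rfl
          rw [e] at h5
          have h6 : (∏ q ∈ Q ∪ P, qch q ((p : ℕ) : ℤ)) ^ 2 = 1 := by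
            refine qprod_sq (fun q hq => (hG q hq).pr) fun q hq hd => ?_
            have h1 : q ∣ (p : ℕ) := by exact_mod_cast hd
            exact hpS (((Nat.prime_dvd_prime_iff_eq (hG q hq).pr hp).1 h1) ▸ hq)
          have e7 : ec (p : ℕ) = ((p : ℕ) : ℂ) := by unfold ec; rw [if_neg hp7]
          unfold fac
          rw [h5, e7, mul_pow, h6, one_mul, ← Pool.Agent.Y687.p_cpow hp.ne_zero]
          have e8 : ((p : ℕ) : ℂ) ^ (-2 * s) = (((p : ℕ) : ℂ) ^ (-s)) ^ 2 := by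
            rw [← Complex.cpow_nat_mul]
            congr 1
            push_cast
            ring
          rw [e8]
          congr 1
          ring
  · have hF1 : F 1 ≠ 0 := by
      obtain ⟨L, Ω, h⟩ := exists_LD
      have hirrA : Irreducible aR := irr_of_prime_norm (by rw [aR_nR]; norm_num)
      have hp : (sp aR).IsPrime := (maximal_sp hirrA).isPrime
      obtain ⟨B, hB⟩ := exists_vs (sp aR)
      have h1 := hB aR (Ideal.mem_span_singleton_self _)
      rw [aR_coe] at h1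
      have h2 := g4 _ B.valuation L Ω h h1
      intro h0
      rw [h0, map_zero, zero_div, map_zero, mul_zero] at h2
      exact pow_ne_zero _ ((Valuation.ne_zero_iff B.valuation).2 two_ne_zero) h2.symm
    refine mul_ne_zero hF1 ?_
    rw [Complex.cpow_neg_one]
    push_cast
    intro h
    have h1 : ε = 3 := by linear_combination (-2 : ℂ) * h
    rw [h1] at hnε
    norm_num at hnε

end Pool.Agent.V11291.Q49
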